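import Pool.Agent.H692Z.Nest.Main

set_option autoImplicit false

/-! Recognising NeST graphs is NP-hard under polynomial-time many-one reductions. -/

namespace Pool.Agent.Results.MP_5c36ef_lc.NPHard

theorem result : Pool.Agent.NPC.NPHardP Pool.Agent.H692Z.Nest.NeSTRec :=
  Pool.Agent.H692Z.Nest.main

end Pool.Agent.Results.MP_5c36ef_lc.NPHard
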